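import Pool.Agent.H74.TQ.Stmts

set_option autoImplicit false

namespace Pool.TQ

open TMLib Polynomial

namespace BSEARCH

/-- the state: input, number of bits, prefix, upper end -/
abbrev St (α : Type) := α × ℕ × List Bool × List Bool

/-- the midpoint -/
def mid {α : Type} (s : St α) : List Bool :=
  false :: (s.2.2.1 ++ true :: List.replicate (s.2.1 - s.2.2.1.length - 1) false)

open Classical in
/-- one step of the binary search -/
noncomputable def step {α : Type} (θ : α → List Bool → Prop) (s : St α) : St α :=
  if θ s.1 (mid s) then (s.1, s.2.1, s.2.2.1 ++ [true], s.2.2.2)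
  else (s.1, s.2.1, s.2.2.1 ++ [false], mid s)

/-- initial state -/
def ini {α : Type} (k : α → ℕ) (x : α) : St α :=
  (x, k x, [], true :: List.replicate (k x) false)

private lemma ptime_mid {α : Type} [Enc α] : PTime (fun s : St α => mid s) := by
  unfold mid
  fun_prop

private lemma ptime_ini {α : Type} [Enc α] {k : α → ℕ} (hk : PTime k) :
    PTime (fun x : α => ini k x) := by
  unfold ini
  fun_prop

private lemma fpnp_step (K : Calc) {α : Type} [Enc α] [TMLib.Fix α] {θ : α → List Bool → Prop}
    (hθ : NPp (fun p : α × List Bool => θ p.1 p.2)) : FPNP (fun s : St α => step θ s) := by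
  classical
  have h1 : NPp (fun s : St α => θ s.1 (mid s)) :=
    hθ.comp (g := fun s : St α => (s.1, mid s)) (PTime.pair (PTime.fst PTime.id) ptime_mid)
  have h2 : FPNP (fun s : St α => decide (θ s.1 (mid s))) := K.npp h1
  have h3 : PTime (fun s : St α => ((s.1, s.2.1, s.2.2.1 ++ [true], s.2.2.2) : St α)) := by
    fun_prop
  have h4 : PTime (fun s : St α => ((s.1, s.2.1, s.2.2.1 ++ [false], mid s) : St α)) := by
    have := ptime_mid (α := α)
    fun_prop
  refine (K.ite h2 (FPNP.of_ptime h3) (FPNP.of_ptime h4)).congr fun s => ?_
  unfold step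
  split_ifs <;> rfl

/-- the shape of the states -/
private lemma shape {α : Type} (θ : α → List Bool → Prop) (k : α → ℕ) (x : α) (i : ℕ)
    (hi : i ≤ k x) : ((step θ)^[i] (ini k x)).1 = x ∧ ((step θ)^[i] (ini k x)).2.1 = k x ∧
      ((step θ)^[i] (ini k x)).2.2.1.length = i ∧
      ((step θ)^[i] (ini k x)).2.2.2.length = k x + 1 := by
  induction i with
  | zero => simp [ini]
  | succ i ih =>
    obtain ⟨h1, h2, h3, h4⟩ := ih (by omega)
    rw [Function.iterate_succ_apply']
    set s := (step θ)^[i] (ini k x) with hs
    unfold step
    split_ifs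
    · exact ⟨h1, h2, by simp [h3], h4⟩
    · refine ⟨h1, h2, by simp [h3], ?_⟩
      simp only [mid, List.length_cons, List.length_append, List.length_replicate, h2, h3]
      omega

private lemma inv (hL : LtbProps) {α : Type} (θ : α → List Bool → Prop) (k : α → ℕ) (x : α)
    (h0 : θ x (List.replicate (k x + 1) false))
    (h1 : ¬ θ x (true :: List.replicate (k x) false)) (i : ℕ) (hi : i ≤ k x) :
    θ x (false :: (((step θ)^[i] (ini k x)).2.2.1 ++ List.replicate (k x - i) false)) ∧
    ¬ θ x ((step θ)^[i] (ini k x)).2.2.2 ∧
    ∀ j : List Bool, j.length = k x → (ltb (false :: j) ((step θ)^[i] (ini k x)).2.2.2 = true ↔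
      (ltb (j.take i) ((step θ)^[i] (ini k x)).2.2.1 = true ∨
        j.take i = ((step θ)^[i] (ini k x)).2.2.1)) := by
  induction i with
  | zero =>
    refine ⟨by simpa [ini, List.replicate_succ] using h0, by simpa [ini] using h1, ?_⟩
    intro j hj
    simp [ini, ltb]
  | succ i ih =>
    obtain ⟨a1, a2, a3⟩ := ih (by omega)
    obtain ⟨b1, b2, b3, b4⟩ := shape θ k x i (by omega)
    rw [Function.iterate_succ_apply']
    set s := (step θ)^[i] (ini k x) with hs
    have hk : k x - i = (k x - i - 1) + 1 := by omega
    have htake : ∀ j : List Bool, j.length = k x → ∃ (b : Bool) (v : List Bool),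
        j = j.take i ++ b :: v ∧ (j.take i).length = s.2.2.1.length ∧
        j.take (i + 1) = j.take i ++ [b] := by
      intro j hj
      have hij : i < j.length := by omega
      refine ⟨j[i], j.drop (i + 1), ?_, ?_, ?_⟩
      · rw [List.cons_getElem_drop_succ, List.take_append_drop]
      · rw [List.length_take, b3]
        omega
      · rw [List.take_append_getElem hij]
    unfold step
    split_ifs with hθ
    · refine ⟨?_, a2, ?_⟩
      · rw [b1] at hθ
        have e : mid s = false :: (s.2.2.1 ++ [true] ++ List.replicate (k x - (i + 1)) false) := by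
          unfold mid
          rw [b2, b3, List.append_assoc]
          have : k x - i - 1 = k x - (i + 1) := by omega
          rw [this]
          rfl
        rw [e] at hθ
        exact hθ
      · intro j hj
        rw [a3 j hj]
        obtain ⟨b, v, hj1, hj2, hj3⟩ := htake j hj
        simp only
        rw [hj3, hL.append _ _ _ _ hj2]
        have hinj : (j.take i ++ [b] = s.2.2.1 ++ [true]) ↔ (j.take i = s.2.2.1 ∧ b = true) := by
          constructor
          · intro h
            have := List.append_inj h hj2
            exact ⟨this.1, by simpa using this.2⟩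
          · rintro ⟨h, rfl⟩
            rw [h]
        rw [hinj]
        cases b <;> simp [ltb]
    · have e : mid s = false :: (s.2.2.1 ++ true :: List.replicate (k x - i - 1) false) := by
        unfold mid
        rw [b2, b3]
      refine ⟨?_, ?_, ?_⟩
      · simp only
        rw [List.append_assoc]
        have : [false] ++ List.replicate (k x - (i + 1)) false = List.replicate (k x - i) false := by
          rw [hk, List.replicate_succ]
          have : k x - i - 1 = k x - (i + 1) := by omega
          rw [this]
          rfl
        rw [this]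
        exact a1
      · rw [b1] at hθ
        exact hθ
      · intro j hj
        obtain ⟨b, v, hj1, hj2, hj3⟩ := htake j hj
        simp only
        rw [hj3, e]
        have e1 : ltb (false :: j) (false :: (s.2.2.1 ++ true :: List.replicate (k x - i - 1) false))
            = ltb j (s.2.2.1 ++ true :: List.replicate (k x - i - 1) false) := by
          simp [ltb]
        rw [e1]
        conv_lhs => rw [hj1]
        rw [hL.append _ _ _ _ hj2, hL.append _ _ _ _ hj2]
        have hinj : (j.take i ++ [b] = s.2.2.1 ++ [false]) ↔ (j.take i = s.2.2.1 ∧ b = false) := by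
          constructor
          · intro h
            have := List.append_inj h hj2
            exact ⟨this.1, by simpa using this.2⟩
          · rintro ⟨h, rfl⟩
            rw [h]
        rw [hinj]
        have e2 := hL.zeros v (k x - i - 1)
        cases b <;> simp [ltb, e2]

end BSEARCH

open BSEARCH in
theorem bsearch : S_BSEARCH := by
  intro K hL α _ _ θ k hθ hk
  refine ⟨fun x => (((step θ)^[k x] (ini k x)).2.2.1, ((step θ)^[k x] (ini k x)).2.2.2), ?_, ?_⟩
  · have h1 : FPNP (fun x => (step θ)^[k x] (ini k x)) := by
      have hkpb : PB k := by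
        refine hk.pb.mono fun x => ?_
        rw [sz_nat]
        omega
      refine K.iter (h := fun x => 40 + sz x + 40 * k x) (fpnp_step K hθ)
        (FPNP.of_ptime (ptime_ini hk)) hk
        (((PB.const 40).add PB.sz_self).add ((PB.const 40).mul hkpb)) ?_
      intro x i hi
      obtain ⟨b1, b2, b3, b4⟩ := shape θ k x i hi
      have c1 := sz_bits_le ((step θ)^[i] (ini k x)).2.2.1
      have c2 := sz_bits_le ((step θ)^[i] (ini k x)).2.2.2
      have c3 : sz ((step θ)^[i] (ini k x)) = 1 + sz ((step θ)^[i] (ini k x)).1 +
          (1 + sz ((step θ)^[i] (ini k x)).2.1 + (1 + sz ((step θ)^[i] (ini k x)).2.2.1 +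
            sz ((step θ)^[i] (ini k x)).2.2.2)) := rfl
      rw [c3, b1, b2, sz_nat]
      omega
    exact K.pcomp (g := fun s : St α => (s.2.2.1, s.2.2.2)) (by fun_prop) h1
  · intro x h0 h1
    obtain ⟨a1, a2, a3⟩ := inv hL θ k x h0 h1 (k x) le_rfl
    obtain ⟨b1, b2, b3, b4⟩ := shape θ k x (k x) le_rfl
    refine ⟨b3, ?_, a2, ?_⟩
    · simpa using a1
    · intro j hj
      have := a3 j hj
      rw [← hj, List.take_length] at this
      rw [hj] at this
      exact this

end Pool.TQ
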