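import Pool.Agent.H74.TQ.Stmts

set_option autoImplicit false

namespace Pool.TQ

open TMLib Polynomial

private lemma lexm_aux (R : List Bool → Prop) : ∀ (N : ℕ) (p : List Bool),
    ∃ s : List Bool, lexminA R N p = p ++ s ∧ s.length = N ∧
      ∀ w : List Bool, w.length = N → R (p ++ w) →
        R (p ++ s) ∧ (w = s ∨ ltb s w = true) := by
  intro N
  induction N with
  | zero =>
    intro p
    refine ⟨[], by simp [lexminA], rfl, ?_⟩
    intro w hw hR
    rw [List.length_eq_zero_iff] at hw
    subst hw
    exact ⟨hR, Or.inl rfl⟩
  | succ N ih =>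
    intro p
    by_cases h : ∃ w : List Bool, w.length = N ∧ R (p ++ false :: w)
    · obtain ⟨s, hs1, hs2, hs3⟩ := ih (p ++ [false])
      refine ⟨false :: s, ?_, by simp [hs2], ?_⟩
      · rw [lexminA, if_pos h, hs1]
        simp
      · obtain ⟨w0, hw0, hRw0⟩ := h
        have hRs : R (p ++ false :: s) := by
          have := (hs3 w0 hw0 (by simpa using hRw0)).1
          simpa using this
        intro w hw hR
        refine ⟨hRs, ?_⟩
        match w, hw, hR with
        | [], hw, _ => simp at hw
        | true :: w, hw, _ => right; simp [ltb]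
        | false :: w, hw, hR =>
          have hw' : w.length = N := by simpa using hw
          rcases (hs3 w hw' (by simpa using hR)).2 with h1 | h1
          · left; rw [h1]
          · right; simp [ltb, h1]
    · obtain ⟨s, hs1, hs2, hs3⟩ := ih (p ++ [true])
      refine ⟨true :: s, ?_, by simp [hs2], ?_⟩
      · rw [lexminA, if_neg h, hs1]
        simp
      · intro w hw hR
        match w, hw, hR with
        | [], hw, _ => simp at hw
        | false :: w, hw, hR => exact absurd ⟨w, by simpa using hw, hR⟩ h
        | true :: w, hw, hR =>
          have hw' : w.length = N := by simpa using hw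
          obtain ⟨h0, h1⟩ := hs3 w hw' (by simpa using hR)
          refine ⟨by simpa using h0, ?_⟩
          rcases h1 with h1 | h1
          · left; rw [h1]
          · right; simp [ltb, h1]

theorem lexm : S_LEXM := by
  intro R N
  obtain ⟨s, hs1, hs2, hs3⟩ := lexm_aux R N []
  have h : lexmin R N = s := by
    unfold lexmin
    rw [hs1]
    rfl
  rw [h]
  exact ⟨hs2, fun w hw hR => hs3 w hw hR⟩

end Pool.TQ
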